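import Pool.Agent.X112.WD.Wf

/-!
Systems of linear relations between consecutive ordinates; unconditional.

The vector `x_n = ((γ (n + j + 1) - γ n) log (γ n) / (2π))_{j < L}` of the normalised differences is, for
almost all `n`, at distance at least `(ε/1000 · L log L)^(1/2)` from any given affine subspace of `ℝ^L`
of dimension at most `L ^ (1 - ε)`.  In particular a given system of `L + 1 - L ^ (1 - ε)` independent
linear relations with arbitrary real coefficients between `γ n, …, γ (n + L)` is satisfied for few `n`.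

Idea of the proof.  In mean square over the height `t`, and for most positions, the `y`-th zero after `t`
differs from its expected place by the real part of a short polynomial `G_y` over the primes; the sum of
the squares of the errors over `y ≤ L` is `o(L log L)` for most `t`.  The projection of `(G_y)_y` on the
orthogonal complement of the subspace (enlarged by `(1)_j` and `(j)_j`) has mean square `≫ ε L log L`,
because the frame bound `∑_p (1/p) |∑_j v_j p^(-i j h)|^2 ≤ C (M / i0) ∑ |v_j|^2` over the primes with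
`log p > i0 log T / M` limits what `L ^ (1 - ε)` directions can carry, and it is concentrated because the
frame bound with all the primes has the constant `O(L)`.
-/

set_option autoImplicit false

open Filter Module

namespace Pool.Agent.Results.MP_0ec205_nt.AffineSubspaces

/-- multiplicity of `s` as a zero of the Riemann zeta function (order of vanishing at `s`) -/
noncomputable def zmult (s : ℂ) : ℕ := analyticOrderNatAt riemannZeta s

/-- the number of nontrivial zeros of `ζ` with ordinate in `(0, t]`, with multiplicity -/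
noncomputable def NZ (t : ℝ) : ℕ :=
  ∑ᶠ s ∈ {s : ℂ | riemannZeta s = 0 ∧ 0 < s.re ∧ s.re < 1 ∧ 0 < s.im ∧ s.im ≤ t}, zmult s

/-- for `n ≥ 1`: the `n`-th positive ordinate `γ n` of a nontrivial zero of `ζ`, the ordinates being
listed in nondecreasing order and repeated according to multiplicity -/
noncomputable def γ (n : ℕ) : ℝ := sInf {t : ℝ | n ≤ NZ t}

/-- the vector `x_n ∈ ℝ^L`, `x_n(j) = (γ (n + j + 1) - γ n) log (γ n) / (2π)` for `0 ≤ j < L` -/
noncomputable def xvec (L n : ℕ) (j : Fin L) : ℝ :=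
  (γ (n + j + 1) - γ n) * Real.log (γ n) / (2 * Real.pi)

/-- Unconditionally, with `γ n` the ordinates of all the nontrivial zeros in the upper half-plane.
For all `0 < ε ≤ 1` and `θ > 0` there is `L0` such that for every `L ≥ L0` and all large `N`:

(1) for every linear subspace `V` of `ℝ^L` with `dim V ≤ L ^ (1 - ε)` and every `p ∈ ℝ^L`, at most
`θ N` of the `n ≤ N` have `x_n` within (euclidean) distance `(ε / 1000 · L log L)^(1/2)` of the affine
subspace `p + V`;

(2) for every linear subspace `W` of `ℝ^(L+1)` with `dim W ≤ L ^ (1 - ε)`, at most `θ N` of the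
`n ≤ N` satisfy `(γ n, γ (n + 1), …, γ (n + L)) ∈ W`.

(`N` is large in terms of `ε, θ, L` only; `V, p, W` may depend on `N`.) -/
theorem result (ε : ℝ) (hε : 0 < ε) (hε1 : ε ≤ 1) (θ : ℝ) (hθ : 0 < θ) :
    ∀ᶠ L : ℕ in atTop, ∀ᶠ N : ℕ in atTop,
      (∀ (V : Submodule ℝ (Fin L → ℝ)) (p : Fin L → ℝ), (finrank ℝ V : ℝ) ≤ (L : ℝ) ^ (1 - ε) →
        ({n : ℕ | 1 ≤ n ∧ n ≤ N ∧ ∃ y ∈ V, ∑ j : Fin L, (xvec L n j - (p j + y j)) ^ 2 ≤
          ε / 1000 * (L * Real.log L)}.ncard : ℝ) ≤ θ * N) ∧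
      ∀ W : Submodule ℝ (Fin (L + 1) → ℝ), (finrank ℝ W : ℝ) ≤ (L : ℝ) ^ (1 - ε) →
        ({n : ℕ | 1 ≤ n ∧ n ≤ N ∧ (fun i : Fin (L + 1) => γ (n + i)) ∈ W}.ncard : ℝ) ≤ θ * N := by
  filter_upwards [Pool.Agent.X112.WD.width_fin ε hε hε1 θ hθ, eventually_ge_atTop 1] with L hL hL1
  filter_upwards [hL] with N hN
  have key : ∀ (V : Submodule ℝ (Fin L → ℝ)) (p : Fin L → ℝ), (finrank ℝ V : ℝ) ≤ (L : ℝ) ^ (1 - ε) →
        ({n : ℕ | 1 ≤ n ∧ n ≤ N ∧ ∃ y ∈ V, ∑ j : Fin L, (xvec L n j - (p j + y j)) ^ 2 ≤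
          ε / 1000 * (L * Real.log L)}.ncard : ℝ) ≤ θ * N := hN
  refine ⟨key, fun W hW => ?_⟩
  have hL1' : (1 : ℝ) ≤ L := by exact_mod_cast hL1
  obtain ⟨D, hD⟩ : ∃ D : (Fin (L + 1) → ℝ) →ₗ[ℝ] (Fin L → ℝ), ∀ z j, D z j = z j.succ - z 0 :=
    ⟨{ toFun := fun z j => z j.succ - z 0
       map_add' := fun x y => by
        funext j
        simp only [Pi.add_apply]
        ring
       map_smul' := fun c x => by
        funext j
        simp only [Pi.smul_apply, smul_eq_mul, RingHom.id_apply]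
        ring }, fun z j => rfl⟩
  have hV : (finrank ℝ (W.map D) : ℝ) ≤ (L : ℝ) ^ (1 - ε) := by
    refine le_trans ?_ hW
    exact_mod_cast Submodule.finrank_map_le D W
  refine le_trans ?_ (key (W.map D) 0 hV)
  have hfin : {n : ℕ | 1 ≤ n ∧ n ≤ N ∧ ∃ y ∈ W.map D, ∑ j : Fin L, (xvec L n j - ((0 : Fin L → ℝ) j + y j)) ^ 2 ≤
          ε / 1000 * (L * Real.log L)}.Finite := (Set.finite_Icc 1 N).subset fun n hn => ⟨hn.1, hn.2.1⟩
  have hsub : {n : ℕ | 1 ≤ n ∧ n ≤ N ∧ (fun i : Fin (L + 1) => γ (n + i)) ∈ W} ⊆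
      {n : ℕ | 1 ≤ n ∧ n ≤ N ∧ ∃ y ∈ W.map D, ∑ j : Fin L, (xvec L n j - ((0 : Fin L → ℝ) j + y j)) ^ 2 ≤
          ε / 1000 * (L * Real.log L)} := by
    rintro n ⟨h1, h2, h3⟩
    refine ⟨h1, h2, (Real.log (γ n) / (2 * Real.pi)) • D (fun i : Fin (L + 1) => γ (n + i)),
      Submodule.smul_mem _ _ (Submodule.mem_map_of_mem h3), ?_⟩
    have e : ∀ j : Fin L, (xvec L n j - ((0 : Fin L → ℝ) j + ((Real.log (γ n) / (2 * Real.pi)) •
        D (fun i : Fin (L + 1) => γ (n + i))) j)) ^ 2 = 0 := by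
      intro j
      rw [Pi.smul_apply, hD, smul_eq_mul]
      unfold xvec
      simp only [Fin.val_succ, Fin.val_zero, add_zero, Pi.zero_apply, zero_add]
      rw [show n + (j : ℕ) + 1 = n + ((j : ℕ) + 1) by ring]
      ring
    simp only [e, Finset.sum_const_zero]
    have : 0 ≤ Real.log (L : ℝ) := Real.log_nonneg hL1'
    positivity
  exact_mod_cast Set.ncard_le_ncard hsub hfin

end Pool.Agent.Results.MP_0ec205_nt.AffineSubspaces
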