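import Pool.Agent.X112.LF.Fin
import Pool.Agent.X112.GS.Nc

/-!
Linear forms in the ordinates `γ (n + k 0), …, γ (n + k m)`, where `k 0 = 0`, the differences
`|k i - k j|` are at least `h` and the `k i` at most `h ^ A`, with `h` large.  Unconditional.

For almost all `n` (all but `θ N` of the `n ≤ N`) there is no linear relation with integer coefficients
of modulus at most `H`, and each form is at least `κ √(log h) / log γ_n` in modulus.  Likewise a linear
form with real coefficients whose sum is zero is, for most `n`, at least that far from any given number.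

Idea of the proof.  The form `∑ a_i N(t + 2π k_i / log T)` (`∑ a_i = 0`) in the counting function of the
zeros is approximated in mean square by the real part of a short prime polynomial with complex
coefficients, and the value distribution of these is gaussian with variance `≥ c log h` (the variance
is the quadratic form `-∑ a_i a_j log |k_i - k_j|` up to a bounded error, which is compared with the
form for the tuple `λ k_i / h`).  The passage from heights to zeros needs the law of large numbers for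
the counting function at the scales up to `h ^ A` only.
-/

set_option autoImplicit false

open Filter

namespace Pool.Agent.Results.MP_0ec205_nt.LinearForms

/-- multiplicity of `s` as a zero of the Riemann zeta function (order of vanishing at `s`) -/
noncomputable def zmult (s : ℂ) : ℕ := analyticOrderNatAt riemannZeta s

/-- the number of nontrivial zeros of `ζ` with ordinate in `(0, t]`, with multiplicity -/
noncomputable def NZ (t : ℝ) : ℕ :=
  ∑ᶠ s ∈ {s : ℂ | riemannZeta s = 0 ∧ 0 < s.re ∧ s.re < 1 ∧ 0 < s.im ∧ s.im ≤ t}, zmult s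

/-- for `n ≥ 1`: the `n`-th positive ordinate `γ n` of a nontrivial zero of `ζ`, the ordinates being
listed in nondecreasing order and repeated according to multiplicity -/
noncomputable def γ (n : ℕ) : ℝ := sInf {t : ℝ | n ≤ NZ t}

/-- `k = (0, k 1, …, k m)`, any two of these numbers differ by at least `h`, and all are at most `h ^ A` -/
def Spaced {m : ℕ} (A h : ℕ) (k : Fin (m + 1) → ℕ) : Prop :=
  k 0 = 0 ∧ (∀ i j, i ≠ j → (h : ℝ) ≤ |(k i : ℝ) - k j|) ∧ ∀ i, k i ≤ h ^ A

/-- Unconditionally, with `γ n` the ordinates of all the nontrivial zeros in the upper half-plane.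
For every `m`, `A ≥ 1`, `H` and `θ > 0`:

(1) there is `κ > 0` such that for all large `h`, all spaced tuples `k` and all large `N`, for all but
at most `θ N` of the `n ≤ N`, every integer linear form `∑ a_i γ (n + k i)` with `a ≠ 0` and all
`|a_i| ≤ H` is larger than `κ √(log h) / log (γ n)` in modulus, in particular it is not zero;

(2) there is `κ > 0` such that for all large `h`, all spaced tuples `k` and all large `N`, for all real
`a` with `|a_i| ≤ H`, `∑ a_i = 0`, `∑ a_i ^ 2 ≥ 1` and all real `c`, at most `θ N` of the `n ≤ N`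
satisfy `|∑ a_i γ (n + k i) - c| ≤ κ √(log h) / log (γ n)`. -/
theorem result (m A H : ℕ) (hA : 1 ≤ A) (θ : ℝ) (hθ : 0 < θ) :
    (∃ κ : ℝ, 0 < κ ∧ ∀ᶠ h : ℕ in atTop, ∀ k : Fin (m + 1) → ℕ, Spaced A h k → ∀ᶠ N : ℕ in atTop,
      ({n : ℕ | 1 ≤ n ∧ n ≤ N ∧ ∃ a : Fin (m + 1) → ℤ, a ≠ 0 ∧ (∀ i, |a i| ≤ H) ∧
        |∑ i, (a i : ℝ) * γ (n + k i)| * Real.log (γ n) ≤ κ * Real.sqrt (Real.log h)}.ncard : ℝ) ≤
      θ * N) ∧
    (∃ κ : ℝ, 0 < κ ∧ ∀ᶠ h : ℕ in atTop, ∀ k : Fin (m + 1) → ℕ, Spaced A h k → ∀ᶠ N : ℕ in atTop,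
      ∀ a : Fin (m + 1) → ℝ, (∀ i, |a i| ≤ H) → ∑ i, a i = 0 → 1 ≤ ∑ i, a i ^ 2 → ∀ c : ℝ,
      ({n : ℕ | 1 ≤ n ∧ n ≤ N ∧
        |∑ i, a i * γ (n + k i) - c| * Real.log (γ n) ≤ κ * Real.sqrt (Real.log h)}.ncard : ℝ) ≤
      θ * N) := by
  classical
  refine ⟨?_, ?_⟩
  · obtain ⟨κ, hκ, h⟩ := Pool.Agent.X112.LF.lin_int A m H hA θ hθ
    exact ⟨κ, hκ, h⟩
  · obtain ⟨κ, hκ, h⟩ := Pool.Agent.X112.LF.lin_fin A m hA (H : ℝ) θ (Nat.cast_nonneg _) hθ
    refine ⟨κ, hκ, ?_⟩
    filter_upwards [h] with h hh k hk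
    filter_upwards [hh k hk] with N hN a ha1 ha2 ha3 c
    rw [Pool.Agent.X112.GS.nc]
    refine le_trans (le_of_eq ?_) (hN a ha1 ha2 ha3 c)
    congr!

end Pool.Agent.Results.MP_0ec205_nt.LinearForms
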