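import Pool.Agent.X309.TPf

/-!
Rational (or real) linear relations `∑_j c_j γ_{n+j} = 0` between the ordinates of the zeros of zeta
whose coefficient polynomial `∑_j c_j X^j` has only positive real roots, for example
`∑_j (-1)^j (k choose j) γ_{n+j} = 0`: no such relation, of any length `k ≤ ε N` and with
coefficients of any size, holds at more than `(1 - ε) N` of the `n ≤ N`; and this remains true when
the ordinates are perturbed by `K` mean spacings.  Unconditional.

Idea of the proof.  By the discrete Rolle theorem a difference operator with `k` positive roots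
destroys at most `k` sign changes of a sequence, so it is enough to show that a sequence `z` that is
within `K` mean spacings of the ordinates at a positive proportion of the places has many sign changes
of its second differences, that is, it is neither convex nor concave on a typical window of bounded
length.  If `z` is convex on a window, then its slopes on short blocks in the middle are caught between
the slopes on a long block on the left and a long block on the right; the latter are close to the mean
by the law of large numbers for the sums of consecutive gaps, so that the sums of `r` consecutive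
gaps of the ordinates would be within `O(K)` of their mean at many places.  This contradicts the
central limit theorem of Selberg and Fujii for these sums if `log r` is large compared with `K²`.
-/

set_option autoImplicit false

open Filter Polynomial

namespace Pool.Agent.Results.MP_0ec205_nt.PositiveRootRelations

/-- multiplicity of `s` as a zero of the Riemann zeta function (order of vanishing at `s`) -/
noncomputable def zmult (s : ℂ) : ℕ := analyticOrderNatAt riemannZeta s

/-- the number of nontrivial zeros of `ζ` with ordinate in `(0, t]`, with multiplicity -/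
noncomputable def NZ (t : ℝ) : ℕ :=
  ∑ᶠ s ∈ {s : ℂ | riemannZeta s = 0 ∧ 0 < s.re ∧ s.re < 1 ∧ 0 < s.im ∧ s.im ≤ t}, zmult s

/-- for `n ≥ 1`: the `n`-th positive ordinate `γ n` of a nontrivial zero of `ζ`, the ordinates being
listed in nondecreasing order and repeated according to multiplicity -/
noncomputable def γ (n : ℕ) : ℝ := sInf {t : ℝ | n ≤ NZ t}

/-- the monic polynomial with the roots `R` -/
noncomputable def pol (R : Multiset ℝ) : ℝ[X] := (R.map fun ρ => X - C ρ).prod

/-- `∑_j c_j z_{i+j}`, where `P = ∑_j c_j X^j` -/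
noncomputable def form (P : ℝ[X]) (z : ℕ → ℝ) (i : ℕ) : ℝ := P.sum fun j c => c * z (i + j)

/-- the sequence `u` changes sign at least `m` times on `[a, b)` -/
def Changes (u : ℕ → ℝ) (a b m : ℕ) : Prop :=
  ∃ i : ℕ → ℕ, StrictMono i ∧ a ≤ i 0 ∧ i m < b ∧ ∀ t < m, u (i t) * u (i (t + 1)) < 0

/-- `|z_i - γ_{n+i}| ≤ K / log γ_{n+i}` for at least `η B` of the `0 ≤ i < B` -/
def Near (η K : ℝ) (B n : ℕ) (z : ℕ → ℝ) : Prop :=
  η * B ≤ ({i : ℕ | i < B ∧ |γ (n + i) - z i| * Real.log (γ (n + i)) ≤ K}.ncard : ℝ)

/-- for every sequence `z` near the ordinates on the window `[n, n + B)` and every `P` with at most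
`ε B` roots, all positive: the form with coefficients `P` is nonzero at at least `ε B` places of the
window, and the form with coefficients `(X-1)² P` changes sign at least `ε B` times; moreover no
polynomial sequence of degree at most `ε B - 1` is near the ordinates -/
def Irregular (η K ε : ℝ) (B n : ℕ) : Prop :=
  (∀ z : ℕ → ℝ, Near η K B n z → ∀ R : Multiset ℝ, (∀ ρ ∈ R, 0 < ρ) →
    (Multiset.card R : ℝ) ≤ ε * B →
      ε * B ≤ ({i : ℕ | i + Multiset.card R < B ∧ form (pol R) z i ≠ 0}.ncard : ℝ) ∧
      Changes (form ((X - 1) ^ 2 * pol R) z) 0 (B - Multiset.card R - 2) ⌈ε * B⌉₊) ∧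
  ∀ f : ℝ[X], (f.natDegree : ℝ) + 1 ≤ ε * B → ¬ Near η K B n (fun i => f.eval (i : ℝ))

/-- Unconditionally, with `γ n` the ordinates of all the nontrivial zeros in the upper half-plane:
(1) there is `ε > 0` such that for all large `N` and every monic `P = ∑_j c_j X^j` with at most `ε N`
roots, all of them real and positive, `∑_j c_j γ_{n+j} ≠ 0` for at least `ε N` of the `n` for which
only ordinates `γ_1, …, γ_N` are involved, and the form with the coefficients of `(X-1)² P` changes
sign at least `ε N` times.
(2) For every `η > 0` there is `C` such that for all `K ≥ 1`, all large `N` and all `B` with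
`exp (C K²) ≤ B ≤ N`: all but at most `η N` of the windows `[n, n + B)`, `n ≤ N`, are irregular with
`ε = exp (-C K²)`. -/
theorem result :
    (∃ ε : ℝ, 0 < ε ∧ ∀ᶠ N : ℕ in atTop, ∀ R : Multiset ℝ, (∀ ρ ∈ R, 0 < ρ) →
      (Multiset.card R : ℝ) ≤ ε * N →
      ε * N ≤ ({n : ℕ | 1 ≤ n ∧ n ≤ N ∧ (n + Multiset.card R ≤ N ∧
        form (pol R) γ n ≠ 0)}.ncard : ℝ) ∧
      Changes (form ((X - 1) ^ 2 * pol R) γ) 1 (N - Multiset.card R - 1) ⌈ε * N⌉₊) ∧
    (∀ η : ℝ, 0 < η → ∃ C : ℝ, 0 < C ∧ ∀ K : ℝ, 1 ≤ K → ∀ᶠ N : ℕ in atTop, ∀ B : ℕ,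
      Real.exp (C * K ^ 2) ≤ B → B ≤ N →
      ({n : ℕ | 1 ≤ n ∧ n ≤ N ∧ ¬ Irregular η K (Real.exp (-C * K ^ 2)) B n}.ncard : ℝ) ≤
        η * N) := by
  classical
  have e0 : ∀ n, γ n = SG.ord n := fun n => rfl
  have e1 : ∀ R, pol R = Pool.Agent.X309.TP.pol R := fun R => rfl
  have e2 : ∀ P z, form P z = Pool.Agent.X309.TP.form P z := fun P z => rfl
  have e3 : ∀ u a b m, Changes u a b m = Pool.Agent.X309.TP.Changes u a b m := fun _ _ _ _ => rfl
  have e4 : γ = SG.ord := rfl
  refine ⟨?_, fun η hη => ?_⟩
  · obtain ⟨ε, hε, h⟩ := Pool.Agent.X309.TP.main_global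
    refine ⟨ε, hε, ?_⟩
    filter_upwards [h] with N hN R hR hRc
    obtain ⟨a1, a2⟩ := hN R hR hRc
    refine ⟨?_, a2⟩
    rw [Pool.Agent.X112.GS.nc]
    refine a1.trans (le_of_eq ?_)
    congr!
  · obtain ⟨C, hC, h⟩ := Pool.Agent.X309.TP.main_window η hη
    refine ⟨C, hC, fun K hK => ?_⟩
    filter_upwards [h K hK] with N hN B hB1 hB2
    refine le_trans ?_ (hN B hB1 hB2)
    rw [Pool.Agent.X112.GS.nc]
    have hcard : ∀ (n : ℕ) (z : ℕ → ℝ),
        {i : ℕ | i < B ∧ |γ (n + i) - z i| * Real.log (γ (n + i)) ≤ K}.ncard =
        ((Finset.range B).filter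
          (fun i => |SG.ord (n + i) - z i| * Real.log (SG.ord (n + i)) ≤ K)).card := by
      intro n z
      rw [← Set.ncard_coe_finset]
      congr 1
      ext i
      simp only [Set.mem_setOf_eq, Finset.coe_filter, Finset.mem_range, e0]
    have hcard2 : ∀ (R : Multiset ℝ) (z : ℕ → ℝ),
        {i : ℕ | i + Multiset.card R < B ∧ form (pol R) z i ≠ 0}.ncard =
        ((Finset.range B).filter (fun i => i + Multiset.card R < B ∧
          Pool.Agent.X309.TP.form (Pool.Agent.X309.TP.pol R) z i ≠ 0)).card := by
      intro R z
      rw [← Set.ncard_coe_finset]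
      congr 1
      ext i
      simp only [Set.mem_setOf_eq, Finset.coe_filter, Finset.mem_range, e1, e2]
      constructor
      · rintro ⟨g1, g2⟩
        exact ⟨by omega, g1, g2⟩
      · rintro ⟨_, g1, g2⟩
        exact ⟨g1, g2⟩
    have hcast : (0 : ℝ) < Real.exp (-C * K ^ 2) * B := by
      have : (0 : ℝ) < B := lt_of_lt_of_le (Real.exp_pos _) hB1
      positivity
    exact_mod_cast Finset.card_le_card (fun n hn => by
      rw [Finset.mem_filter] at hn ⊢
      refine ⟨hn.1, fun hgood => hn.2 ?_⟩
      constructor
      · intro z hz R hR hRc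
        unfold Near at hz
        rw [hcard] at hz
        obtain ⟨a1, a2⟩ := hgood z (by convert hz) R hR hRc
        refine ⟨?_, a2⟩
        rw [hcard2]
        refine a1.trans (le_of_eq ?_)
        congr!
      · intro f hf hz
        unfold Near at hz
        rw [hcard] at hz
        obtain ⟨a1, -⟩ := hgood _ (by convert hz) (Multiset.replicate (f.natDegree + 1) 1)
          (fun ρ hρ => by rw [Multiset.eq_of_mem_replicate hρ]; exact one_pos)
          (by rw [Multiset.card_replicate]; push_cast; exact hf)
        rw [Pool.Agent.X309.TP.form_poly (f.natDegree + 1) f (Nat.lt_succ_self _)] at a1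
        rw [Finset.filter_false_of_mem (by intro i _ h; exact h.2 rfl)] at a1
        rw [Finset.card_empty, Nat.cast_zero] at a1
        linarith)

end Pool.Agent.Results.MP_0ec205_nt.PositiveRootRelations
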