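import Pool.Agent.X113.HZ1

/-!
# The Linear Independence Conjecture is one inequality for an exponential mean over the primes

Let

`A(v) = (1 / √(2π)) ∑_n Λ(n) n^(-1/2) exp(-(v - log n)² / 2) - exp(v/2 + 1/8)`,

the error term in the prime number theorem near `x = e^v` with a smooth weight of fixed length in `log n`, and for
`λ > 0` let `E(V) = (1/V) ∫_0^V exp(-λ A(v)) dv`. Let `Γ⁺` be the set of the ordinates `γ > 0` of the zeros
`1/2 + iγ` of `ζ`, `m_γ` the multiplicity, and

`P = ∏_{γ ∈ Γ⁺} I₀(2 λ m_γ exp(-γ²/2))`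

with the modified Bessel function `I₀`, a convergent product. Unconditionally, for every `λ > 0`:

1. `E(V)` is bounded as `V → ∞` if and only if the Riemann hypothesis holds;
2. in this case `E(V)` has a limit `l`, `l ≥ P`, and `l = P` if and only if `Γ⁺` is linearly independent over `ℚ`;
3. hence the Linear Independence Conjecture (if the Riemann hypothesis holds, then `Γ⁺` is linearly independent) is
   EQUIVALENT to the statement on primes: if `E(V)` is bounded, then `limsup E(V) ≤ P`;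
   and the Riemann hypothesis together with the conjecture is equivalent to `limsup E(V) ≤ P`.

Idea of the proof. The smoothed explicit formula gives `A(v) = -∑_ρ m_ρ e^{(ρ-1/2)²/2} e^{(ρ-1/2) v} + o(1)`. On the
critical line the coefficients are positive (this is why the weight is a Gaussian), so all the Fourier
coefficients of `exp(λ ∑ a_γ cos γv)` are positive: each vector of integers `k` contributes `∏_γ I_{k_γ}(λ a_γ) > 0` to
the frequency `∑_γ k_γ γ`, the mean value is the sum over all the linear relations, and the trivial relation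
contributes `P`. Conversely the boundedness of `E(V)` makes the Laplace transform of the positive part of `-A`
converge in `Re w > 0`; `ζ` has no zeros in `(1/2, 1)`, so by Landau's lemma the transform of `A` converges in
`Re w > 0` too and is analytic there, which is the Riemann hypothesis.
-/

set_option autoImplicit false

open Filter Topology MeasureTheory

namespace Pool.Agent.Results.MP_0ec205_nt.PrimeExponentialMean

/-- `Γ⁺`: the positive ordinates of the zeros on the critical line -/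
def Gam : Set ℝ := {γ : ℝ | 0 < γ ∧ riemannZeta (⟨1 / 2, γ⟩ : ℂ) = 0}

/-- the multiplicity of the zero `1/2 + iγ` -/
noncomputable def m (γ : ℝ) : ℕ := analyticOrderNatAt riemannZeta (⟨1 / 2, γ⟩ : ℂ)

/-- the modified Bessel function `I₀` -/
noncomputable def I0 (t : ℝ) : ℝ := ∑' j : ℕ, (t / 2) ^ (2 * j) / (j.factorial : ℝ) ^ 2

/-- `A(v) = (1 / √(2π)) ∑_n Λ(n) n^(-1/2) exp(-(v - log n)² / 2) - exp(v/2 + 1/8)` -/
noncomputable def A (v : ℝ) : ℝ := (Real.sqrt (2 * Real.pi))⁻¹ * (∑' n : ℕ, ArithmeticFunction.vonMangoldt n *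
    (n : ℝ) ^ (-(1 / 2) : ℝ) * Real.exp (-((v - Real.log n) ^ 2) / 2)) - Real.exp (v / 2 + 1 / 8)

/-- `E(V) = (1/V) ∫_0^V exp(-λ A(v)) dv` -/
noncomputable def E (lam V : ℝ) : ℝ := (∫ v in (0:ℝ)..V, Real.exp (-(lam * A v))) / V

/-- `P = ∏_γ I₀(2 λ m_γ exp(-γ²/2))` -/
noncomputable def P (lam : ℝ) : ℝ := ∏' γ : Gam, I0 (2 * lam * (m (γ : ℝ) : ℝ) * Real.exp (-((γ : ℝ) ^ 2) / 2))

/-- the linear independence of the positive ordinates over `ℚ` -/
def LI : Prop := LinearIndependent ℚ (fun γ : Gam => (γ : ℝ))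

lemma E_eq (lam : ℝ) : E lam = fun V => (∫ v in (0:ℝ)..V, Real.exp (-(lam * Pool.Agent.X113.HQ.Aq 1 v))) / V := by
  funext V
  unfold E A
  simp only [Pool.Agent.X113.HZ.A_one]

/-- **the exponential mean of the primes and linear independence** -/
theorem result (lam : ℝ) (hlam : 0 < lam) :
    -- the product converges
    Multipliable (fun γ : Gam => I0 (2 * lam * (m (γ : ℝ) : ℝ) * Real.exp (-((γ : ℝ) ^ 2) / 2))) ∧
    -- 1. the mean is bounded if and only if the Riemann hypothesis holds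
    ((∃ C : ℝ, ∀ᶠ V : ℝ in atTop, E lam V ≤ C) ↔ RiemannHypothesis) ∧
    -- 2. the limit
    (RiemannHypothesis → ∃ l : ℝ, Tendsto (E lam) atTop (𝓝 l) ∧ P lam ≤ l ∧ (l = P lam ↔ LI)) ∧
    -- 3. the conjecture as a statement on primes
    ((RiemannHypothesis → LI) ↔ ((∃ C : ℝ, ∀ᶠ V : ℝ in atTop, E lam V ≤ C) →
      ∀ ε : ℝ, 0 < ε → ∀ᶠ V : ℝ in atTop, E lam V ≤ P lam + ε)) ∧
    ((RiemannHypothesis ∧ LI) ↔ ∀ ε : ℝ, 0 < ε → ∀ᶠ V : ℝ in atTop, E lam V ≤ P lam + ε) := by
  obtain ⟨h1, h2, h3⟩ := Pool.Agent.X113.HZ.all_zeta Gam Pool.Agent.X113.HZ.Gam_one.symm hlam (P := P lam) rfl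
  rw [← E_eq] at h3
  have h2' : (∃ C : ℝ, ∀ᶠ V : ℝ in atTop, E lam V ≤ C) ↔ RiemannHypothesis := by
    rw [E_eq]
    exact h2
  have key : RiemannHypothesis → (LI ↔ ∀ ε : ℝ, 0 < ε → ∀ᶠ V : ℝ in atTop, E lam V ≤ P lam + ε) := by
    intro RH
    obtain ⟨l, k1, k2, k3⟩ := h3 RH
    constructor
    · intro hLI ε hε
      rw [k3.2 hLI] at k1
      exact k1.eventually (ge_mem_nhds (by linarith))
    · intro h
      exact k3.1 (le_antisymm (le_of_forall_pos_le_add fun ε hε => le_of_tendsto k1 (h ε hε)) k2)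
  refine ⟨h1, h2', h3, ?_, ?_⟩
  · constructor
    · intro h hb
      have RH := h2'.1 hb
      exact (key RH).1 (h RH)
    · intro h RH
      exact (key RH).2 (h (h2'.2 RH))
  · constructor
    · rintro ⟨RH, hLI⟩
      exact (key RH).1 hLI
    · intro h
      have RH := h2'.1 ⟨P lam + 1, h 1 one_pos⟩
      exact ⟨RH, (key RH).2 h⟩

end Pool.Agent.Results.MP_0ec205_nt.PrimeExponentialMean
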